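import Mathlib
import Pool.Agent.K9h57.PermClass.Mean

set_option autoImplicit false

/-!
# Longest pattern-class subsequences versus Stanley-Wilf limits: `c_A < s_A`

Let `A_k` be the class of the permutations all of whose sum components have size at most `k`; its
basis is the finite set of the sum-indecomposable permutations of length `k + 1`.  We refute the
equality `c_A = s_A` of Q1 of MP_cd0eb5 for the finitely based, sum-closed classes `A_k` with
`k ≥ 17500`: `s_A ≥ k / e` since `|S_k ∩ A_k| = k!`, while `c_A ≤ (1 + o(1)) k / 4`, since a chain of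
boxes with at most `k` points each has at most about `√(k n)` points of a random permutation.
-/

namespace Pool.Agent.Results.MP_cd0eb5_co.SumClosedCounterexample

open Filter Topology
open Pool.Agent.K9h57.PermClass

theorem result :
    (∀ k : ℕ, 17500 ≤ k →
      -- the class is proper, finitely based and sum-closed
      (basis k).Finite ∧ (basis k).Nonempty ∧ SumClosed (basis k) ∧
      -- the limit `s_A` exists
      Tendsto (fun n : ℕ => ((Av (basis k) n).ncard : ℝ) ^ ((1 : ℝ) / (n : ℝ))) atTop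
        (𝓝 (sA (basis k))) ∧
      -- the sequence in the definition of `c_A` is bounded
      BddAbove (Set.range fun n : ℕ => meanLongest (basis k) n / Real.sqrt n) ∧
      -- but `c_A ≠ s_A`
      cA (basis k) < sA (basis k)) ∧
    -- quantitative form: `c_A / s_A ≤ e / 4 + o(1)` as `k → ∞`
    (∀ δ : ℝ, 0 < δ → δ ≤ 1 → ∀ k : ℕ, 140 / δ ^ 3 ≤ k →
      k / Real.exp 1 ≤ sA (basis k) ∧ cA (basis k) ≤ (1 + δ) ^ 2 / 4 * k) := by
  have hs : ∀ k : ℕ, 0 < k →
      Tendsto (fun n : ℕ => ((Av (basis k) n).ncard : ℝ) ^ ((1 : ℝ) / (n : ℝ))) atTop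
        (𝓝 (sA (basis k))) ∧ k / Real.exp 1 ≤ sA (basis k) := by
    intro k hk
    obtain ⟨s, h1, h2⟩ := growth hk
    have h3 : sA (basis k) = s := h1.limsup_eq
    rw [h3]
    exact ⟨h1, h2⟩
  refine ⟨fun k hk => ?_, fun δ hδ hδ1 k hk => ?_⟩
  · have hkR : (17500 : ℝ) ≤ k := by exact_mod_cast hk
    have hk' : 140 / (1 / 5 : ℝ) ^ 3 ≤ k := by
      norm_num
      linarith
    obtain ⟨h1, h2⟩ := hs k (by omega)
    refine ⟨basis_finite k, basis_nonempty k, sumClosed_basis k, h1,
      mean_bddAbove (by norm_num) (by norm_num) hk', ?_⟩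
    have h3 := cA_le (by norm_num : (0 : ℝ) < 1 / 5) (by norm_num) hk'
    refine lt_of_lt_of_le (lt_of_le_of_lt h3 ?_) h2
    rw [lt_div_iff₀ (Real.exp_pos 1)]
    have h4 := Real.exp_one_lt_d9
    have h5 : (k : ℝ) * Real.exp 1 ≤ k * 2.7182818286 :=
      mul_le_mul_of_nonneg_left h4.le (by linarith)
    nlinarith
  · have hk0 : (0 : ℝ) < k := lt_of_lt_of_le (by positivity) hk
    exact ⟨(hs k (by exact_mod_cast hk0)).2, cA_le hδ hδ1 hk⟩

end Pool.Agent.Results.MP_cd0eb5_co.SumClosedCounterexample
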